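import Pool.Agent.Y560.TT.Fin7

set_option autoImplicit false

/-!
The countable-or-perfect dichotomy for invariant Borel sets of countable structures which, over a
finite sequence of parameters, have an invariant total preorder whose closed initial segments have
only countably many automorphisms; in particular for all Borel classes of structures whose
substructures over some finite set form a chain.
-/

namespace Pool.Agent.Results.MP_5607ba_lc.SegmentTowers

open Pool.Agent.Y560.TT

/-- Structures on `ℕ` with relations `x.1 i` of arities `a i` and functions `x.2 j` of arities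
`b j`. -/
abbrev Str (a b : ℕ → ℕ) : Type :=
  ((i : ℕ) → (Fin (a i) → ℕ) → Bool) × ((j : ℕ) → (Fin (b j) → ℕ) → ℕ)

/-- `σ` is an isomorphism from `x` to `y`. -/
def IsIso {a b : ℕ → ℕ} (σ : Equiv.Perm ℕ) (x y : Str a b) : Prop :=
  (∀ (i : ℕ) (v : Fin (a i) → ℕ), y.1 i (⇑σ ∘ v) = x.1 i v) ∧
    ∀ (j : ℕ) (v : Fin (b j) → ℕ), y.2 j (⇑σ ∘ v) = σ (x.2 j v)

/-- `S` is closed under the functions of `x`. -/
def Substructure {a b : ℕ → ℕ} (x : Str a b) (S : Set ℕ) : Prop :=
  ∀ (j : ℕ) (v : Fin (b j) → ℕ), (∀ k, v k ∈ S) → x.2 j v ∈ S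

/-- The closed initial segment of `m` for the relation `D x s`. -/
abbrev Segment {a b : ℕ → ℕ} (D : Str a b → List ℕ → ℕ → ℕ → Prop) (x : Str a b) (s : List ℕ)
    (m : ℕ) : Type := {k : ℕ // D x s k m}

/-- `σ` is an automorphism over the parameters `s` of a closed initial segment: it preserves the
relations of `x`, the graphs of the functions of `x` (on the segment, which need not be closed under
the functions) and the relation `D x s`, and it fixes the members of `s`. -/
structure SegmentAut {a b : ℕ → ℕ} (D : Str a b → List ℕ → ℕ → ℕ → Prop) (x : Str a b)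
    (s : List ℕ) (m : ℕ) (σ : Equiv.Perm (Segment D x s m)) : Prop where
  rel : ∀ (i : ℕ) (v : Fin (a i) → Segment D x s m),
    x.1 i (fun k => (σ (v k) : ℕ)) = x.1 i (fun k => (v k : ℕ))
  fun_graph : ∀ (j : ℕ) (v : Fin (b j) → Segment D x s m) (w : Segment D x s m),
    x.2 j (fun k => (v k : ℕ)) = w ↔ x.2 j (fun k => (σ (v k) : ℕ)) = σ w
  order : ∀ p q, D x s (σ p) (σ q) ↔ D x s p q
  fixed : ∀ p : Segment D x s m, (p : ℕ) ∈ s → σ p = p

/-- `B` is closed under isomorphism. `G` is an isomorphism-invariant Borel family of pairs of a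
structure in `B` and a finite sequence `s` of parameters in it, with at least one `s` for every
`x ∈ B`. `D` assigns to every such pair a total preorder of the universe, in a Borel and
isomorphism-invariant way, such that the parameters are minimal elements and every closed initial
segment has only countably many automorphisms over the parameters. -/
structure Tower {a b : ℕ → ℕ} (B : Set (Str a b)) (G : Str a b → List ℕ → Prop)
    (D : Str a b → List ℕ → ℕ → ℕ → Prop) : Prop where
  closed : ∀ x ∈ B, ∀ (y : Str a b) (σ : Equiv.Perm ℕ), IsIso σ x y → y ∈ B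
  borel_param : ∀ s, MeasurableSet {x | x ∈ B ∧ G x s}
  borel : ∀ s m n, MeasurableSet {x | x ∈ B ∧ G x s ∧ D x s m n}
  invariant : ∀ x ∈ B, ∀ (y : Str a b) (σ : Equiv.Perm ℕ), IsIso σ x y → ∀ s, G x s →
    G y (s.map σ) ∧ ∀ m n, D x s m n ↔ D y (s.map σ) (σ m) (σ n)
  param : ∀ x ∈ B, ∃ s, G x s
  total : ∀ x ∈ B, ∀ s, G x s → ∀ m n, D x s m n ∨ D x s n m
  trans : ∀ x ∈ B, ∀ s, G x s → ∀ k m n, D x s k m → D x s m n → D x s k n
  minimal : ∀ x ∈ B, ∀ s, G x s → ∀ c ∈ s, ∀ m, D x s c m
  countable : ∀ x ∈ B, ∀ s, G x s → ∀ m,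
    {σ : Equiv.Perm (Segment D x s m) | SegmentAut D x s m σ}.Countable

/-- `B` contains countably many isomorphism types, or there is a continuous map from the Cantor
space into `B` with pairwise non-isomorphic values. -/
def Dichotomy {a b : ℕ → ℕ} (B : Set (Str a b)) : Prop :=
  (∃ f : ℕ → Str a b, ∀ x ∈ B, ∃ (n : ℕ) (σ : Equiv.Perm ℕ), IsIso σ (f n) x) ∨
  (∃ g : (ℕ → Bool) → Str a b, Continuous g ∧ (∀ c, g c ∈ B) ∧
    ∀ c d, (∃ σ : Equiv.Perm ℕ, IsIso σ (g c) (g d)) → c = d)

/-- Every Borel class of countable structures which is a tower class satisfies the dichotomy. In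
particular, let `B` be a Borel class of countable structures, closed under isomorphism, such that
every `x ∈ B` has a finite subset `F` for which the substructures of `x` containing `F` form a
chain. Then `B` satisfies the dichotomy. -/
theorem result :
    (∀ (a b : ℕ → ℕ) (B : Set (Str a b)) (G : Str a b → List ℕ → Prop)
      (D : Str a b → List ℕ → ℕ → ℕ → Prop), MeasurableSet B → Tower B G D → Dichotomy B) ∧
    ∀ (a b : ℕ → ℕ) (B : Set (Str a b)), MeasurableSet B →
      (∀ x ∈ B, ∀ (y : Str a b) (σ : Equiv.Perm ℕ), IsIso σ x y → y ∈ B) →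
      (∀ x ∈ B, ∃ F : Set ℕ, F.Finite ∧ ∀ S T, Substructure x S → Substructure x T →
        F ⊆ S → F ⊆ T → S ⊆ T ∨ T ⊆ S) →
      Dichotomy B := by
  refine ⟨fun a b B G D hB h => ?_, fun a b B hB hi hch => ?_⟩
  · refine tower_fun B G D hB (fun x y hxy => ?_)
      ⟨h.borel_param, h.borel, fun x hx y σ h1 h2 s hs => h.invariant x hx y σ ⟨h1, h2⟩ s hs,
        h.total, h.trans, h.minimal⟩ h.param (fun x hx s hs m => ?_)
    · exact ⟨fun hx => by obtain ⟨σ, hσ⟩ := hxy; exact h.closed x hx y σ hσ,
        fun hy => by obtain ⟨σ, hσ⟩ := fiso_symm hxy; exact h.closed y hy x σ hσ⟩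
    · refine (h.countable x hx s hs m).mono ?_
      rintro σ ⟨h1, h2, h3, h4⟩
      exact ⟨h1, h2, h3, h4⟩
  · refine chain_main hB (fun x y h => ?_) hch
    exact ⟨fun hx => by obtain ⟨σ, hσ⟩ := h; exact hi x hx y σ hσ,
      fun hy => by obtain ⟨σ, hσ⟩ := fiso_symm h; exact hi y hy x σ hσ⟩

end Pool.Agent.Results.MP_5607ba_lc.SegmentTowers
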